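import Pool.Agent.ELS.IntKer

/-!
# The equivariant systems in coordinates

`esol_finrank`: the linear map `f ↦ (f (pt i) t)_(i,t)` is an isomorphism of `ESol` onto the solutions of the
rows `rowsA`: `f x = ρ (tr x) *ᵥ f (pt (ix x))`; conversely a solution `z` gives the function
`f x = ρ (tr x) *ᵥ z (ix x, ·)`, which is equivariant: for `h ∈ H` one has `ix (h x) = ix x` and
`tr (h x) = h tr x` because `h x = (h tr x) • pt (ix x)`.  Only `≤` (injectivity) is needed.

`tsol_card`: the same for the scalar systems; a function in `TSol (ZMod m)` is determined by its values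
at the representatives, which satisfy the equations `rowsZ`; the l1-norm of these rows is at most `B`.
With `modSol_card` and `tsolQ_finrank`.

`tsolQ_finrank`: a solution `z` of the rows over `ℚ` gives `f x = z (ix x)` in `TSol ℚ`.

`powSol_le`: let `ρ (h)` act trivially modulo `p^j` for `h ∈ H`.  For a solution `z ∈ PowSol` and `s : Fin d`,
`t : Fin D` the function `x ↦ z (ix x, s) t` is in `TSol (ZMod (p^j))`.  So `PowSol` embeds into
`Fin d → Fin D → TSol`.
-/

namespace Pool.Agent.ELS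

open Matrix

variable {Γ X Y : Type} [Group Γ] [MulAction Γ X]

private theorem coord_sum {W : Type*} [AddCommMonoid W] {k d : ℕ} (S : Finset X)
    (ix : X → Fin k) (g : X → Fin d → Fin k → W) :
    ∑ q : Fin k × Fin d, ∑ x ∈ S.filter (fun x => ix x = q.1), g x q.2 q.1 =
      ∑ x ∈ S, ∑ t, g x t (ix x) := by
  rw [Fintype.sum_prod_type]
  have h1 : ∀ i : Fin k, ∑ t : Fin d, ∑ x ∈ S.filter (fun x => ix x = i), g x t i =
      ∑ x ∈ S.filter (fun x => ix x = i), ∑ t : Fin d, g x t (ix x) := by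
    intro i
    rw [Finset.sum_comm]
    refine Finset.sum_congr rfl fun x hx => Finset.sum_congr rfl fun t _ => ?_
    rw [(Finset.mem_filter.1 hx).2]
  calc ∑ i : Fin k, ∑ t : Fin d, ∑ x ∈ S.filter (fun x => ix x = i), g x t i
      = ∑ i : Fin k, ∑ x ∈ S.filter (fun x => ix x = i), ∑ t : Fin d, g x t (ix x) :=
        Finset.sum_congr rfl fun i _ => h1 i
    _ = ∑ x ∈ S, ∑ t, g x t (ix x) := Finset.sum_fiberwise S ix _

private theorem coord_sum1 {W : Type*} [AddCommMonoid W] {k : ℕ} (S : Finset X)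
    (ix : X → Fin k) (g : X → Fin k → W) :
    ∑ i : Fin k, ∑ x ∈ S.filter (fun x => ix x = i), g x i = ∑ x ∈ S, g x (ix x) := by
  calc ∑ i : Fin k, ∑ x ∈ S.filter (fun x => ix x = i), g x i
      = ∑ i : Fin k, ∑ x ∈ S.filter (fun x => ix x = i), g x (ix x) := by
        refine Finset.sum_congr rfl fun i _ => Finset.sum_congr rfl fun x hx => ?_
        rw [(Finset.mem_filter.1 hx).2]
    _ = ∑ x ∈ S, g x (ix x) := Finset.sum_fiberwise S ix _

private theorem coord_ix_pt {H : Subgroup Γ} {k : ℕ} (R : Rep (X := X) H k) (i : Fin k) :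
    R.ix (R.pt i) = i := by
  have h := R.ix_smul 1 H.one_mem i
  rwa [one_smul] at h

private theorem coord_ix_smul {H : Subgroup Γ} {k : ℕ} (R : Rep (X := X) H k) {h : Γ}
    (hh : h ∈ H) (x : X) : R.ix (h • x) = R.ix x := by
  have h1 : h • x = (h * R.tr x) • R.pt (R.ix x) := by
    rw [mul_smul, ← R.eq x]
  rw [h1]
  exact R.ix_smul _ (H.mul_mem hh (R.tr_mem x)) _

private theorem coord_tsol_eq {K : Type*} [CommRing K] (a : Y → X →₀ ℤ) {H : Subgroup Γ} {k : ℕ}
    (R : Rep (X := X) H k) {f : X → K} (hf : f ∈ TSol K a H) (x : X) :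
    f x = f (R.pt (R.ix x)) := by
  have h1 := hf.1 (R.tr x) (R.tr_mem x) (R.pt (R.ix x))
  rwa [← R.eq x] at h1

private theorem coord_tsol_row {K : Type*} [CommRing K] (a : Y → X →₀ ℤ) {H : Subgroup Γ}
    {k : ℕ} (R : Rep (X := X) H k) {f : X → K} (hf : f ∈ TSol K a H) :
    ∀ r ∈ rowsZ a R, ∑ l, ((r l : ℤ) : K) * f (R.pt l) = 0 := by
  classical
  rintro r ⟨y, rfl⟩
  have h1 := hf.2 y
  have h2 : ∑ l, (((∑ x ∈ (a y).support.filter (fun x => R.ix x = l), a y x : ℤ)) : K) *
      f (R.pt l) = ∑ x ∈ (a y).support, ((a y x : ℤ) : K) * f (R.pt (R.ix x)) := by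
    have h3 := coord_sum1 (a y).support R.ix (fun x i => ((a y x : ℤ) : K) * f (R.pt i))
    rw [← h3]
    refine Finset.sum_congr rfl fun l _ => ?_
    rw [Int.cast_sum, Finset.sum_mul]
  refine Eq.trans ?_ (h2.trans ?_)
  · refine Finset.sum_congr rfl fun l _ => ?_
    congr!
  · rw [← h1]
    refine Finset.sum_congr rfl fun x _ => ?_
    rw [← coord_tsol_eq a R hf x]

theorem esol_finrank (a : Y → X →₀ ℤ) (A : Subring ℝ) {d : ℕ}
    (ρ : Γ →* Matrix (Fin d) (Fin d) A) {H : Subgroup Γ} {k : ℕ} (R : Rep (X := X) H k) :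
    Module.finrank ℝ (ESol ℝ a (fun g => (ρ g).map A.subtype) H) ≤
      Module.finrank ℝ (ChL.Sol (rowsA a ρ R) ℝ A.subtype) := by
  classical
  let L : ESol ℝ a (fun g => (ρ g).map A.subtype) H →ₗ[ℝ]
      ChL.Sol (rowsA a ρ R) ℝ A.subtype :=
    { toFun := fun f => ⟨fun q => f.1 (R.pt q.1) q.2, by
        rintro r ⟨y, s, rfl⟩
        have hx : ∀ x, f.1 x = ((ρ (R.tr x)).map A.subtype) *ᵥ f.1 (R.pt (R.ix x)) := by
          intro x
          have h1 := f.2.1 (R.tr x) (R.tr_mem x) (R.pt (R.ix x))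
          rwa [← R.eq x] at h1
        have h1 := congrFun (f.2.2 y) s
        have h2 := coord_sum (a y).support R.ix (fun x (t : Fin d) i =>
          ((a y x : ℤ) : ℝ) * A.subtype (ρ (R.tr x) s t) * f.1 (R.pt i) t)
        refine Eq.trans ?_ (h2.trans ?_)
        · refine Finset.sum_congr rfl fun q _ => ?_
          rw [map_sum, Finset.sum_mul]
          refine Finset.sum_congr ?_ fun x _ => ?_
          · congr!
          · rw [map_mul, map_intCast]
        · refine Eq.trans ?_ h1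
          rw [Finset.sum_apply]
          refine Finset.sum_congr rfl fun x _ => ?_
          rw [Pi.smul_apply, hx x, smul_eq_mul, Matrix.mulVec, dotProduct, Finset.mul_sum]
          refine Finset.sum_congr rfl fun t _ => ?_
          rw [mul_assoc]
          rfl⟩
      map_add' := fun f g => rfl
      map_smul' := fun c f => rfl }
  refine LinearMap.finrank_le_finrank_of_injective (f := L) ?_
  intro f g hfg
  apply Subtype.ext
  funext x
  have hx : ∀ (f : ESol ℝ a (fun g => (ρ g).map A.subtype) H) (x : X),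
      f.1 x = ((ρ (R.tr x)).map A.subtype) *ᵥ f.1 (R.pt (R.ix x)) := by
    intro f x
    have h1 := f.2.1 (R.tr x) (R.tr_mem x) (R.pt (R.ix x))
    rwa [← R.eq x] at h1
  have h2 : f.1 (R.pt (R.ix x)) = g.1 (R.pt (R.ix x)) := by
    funext t
    exact congrFun (congrArg Subtype.val hfg) (R.ix x, t)
  rw [hx f x, hx g x, h2]

theorem tsolQ_finrank (a : Y → X →₀ ℤ) {H : Subgroup Γ} {k : ℕ} (R : Rep (X := X) H k) :
    Module.finrank ℚ (ChL.Sol (rowsZ a R) ℚ (Int.castRingHom ℚ)) ≤
      Module.finrank ℚ (TSol ℚ a H) := by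
  classical
  let E : TSol ℚ a H →ₗ[ℚ] (Fin k → ℚ) :=
    { toFun := fun f i => f.1 (R.pt i)
      map_add' := fun f g => rfl
      map_smul' := fun c f => rfl }
  have hE : Function.Injective E := by
    intro f g hfg
    apply Subtype.ext
    funext x
    rw [coord_tsol_eq a R f.2 x, coord_tsol_eq a R g.2 x]
    exact congrFun hfg (R.ix x)
  haveI : Module.Finite ℚ (TSol ℚ a H) := Module.Finite.of_injective E hE
  let L : ChL.Sol (rowsZ a R) ℚ (Int.castRingHom ℚ) →ₗ[ℚ] TSol ℚ a H :=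
    { toFun := fun z => ⟨fun x => z.1 (R.ix x), by
        refine ⟨fun h hh x => ?_, fun y => ?_⟩
        · show z.1 (R.ix (h • x)) = z.1 (R.ix x)
          rw [coord_ix_smul R hh x]
        · have h1 := z.2 _ ⟨y, rfl⟩
          refine Eq.trans ?_ h1
          have h3 := coord_sum1 (a y).support R.ix (fun x i => ((a y x : ℤ) : ℚ) * z.1 i)
          refine h3.symm.trans ?_
          refine Finset.sum_congr rfl fun l _ => ?_
          rw [map_sum, Finset.sum_mul]
          refine Finset.sum_congr ?_ fun x _ => rfl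
          congr!⟩
      map_add' := fun f g => rfl
      map_smul' := fun c f => rfl }
  refine LinearMap.finrank_le_finrank_of_injective (f := L) ?_
  intro z w hzw
  apply Subtype.ext
  funext i
  have h1 := congrFun (congrArg Subtype.val hzw) (R.pt i)
  have h2 : z.1 (R.ix (R.pt i)) = w.1 (R.ix (R.pt i)) := h1
  rwa [coord_ix_pt R i] at h2

theorem tsol_card (a : Y → X →₀ ℤ) (B : ℕ) (hB1 : 1 ≤ B)
    (hB : ∀ y, ∑ x ∈ (a y).support, |a y x| ≤ (B : ℤ)) {H : Subgroup Γ} {k : ℕ}
    (R : Rep (X := X) H k) (m : ℕ) [NeZero m] :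
    Finite (TSol (ZMod m) a H) ∧
    Nat.card (TSol (ZMod m) a H) ≤ m ^ Module.finrank ℚ (TSol ℚ a H) * B ^ k := by
  classical
  let E : TSol (ZMod m) a H → ModSol m (rowsZ a R) := fun f => ⟨fun i => f.1 (R.pt i),
    coord_tsol_row a R f.2⟩
  have hE : Function.Injective E := by
    intro f g hfg
    apply Subtype.ext
    funext x
    rw [coord_tsol_eq a R f.2 x, coord_tsol_eq a R g.2 x]
    exact congrFun (congrArg Subtype.val hfg) (R.ix x)
  refine ⟨Finite.of_injective E hE, ?_⟩
  refine (Nat.card_le_card_of_injective E hE).trans ?_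
  have hM : ∀ r ∈ rowsZ a R, ∑ l, |r l| ≤ (B : ℤ) := by
    rintro r ⟨y, rfl⟩
    refine le_trans ?_ (hB y)
    have h3 := coord_sum1 (a y).support R.ix (fun x _ => |a y x|)
    rw [← h3]
    refine Finset.sum_le_sum fun l _ => ?_
    refine (Finset.abs_sum_le_sum_abs _ _).trans (le_of_eq ?_)
    refine Finset.sum_congr ?_ fun x _ => rfl
    congr!
  have h1 := modSol_card (rowsZ a R) B hB1 hM m
  rw [Fintype.card_fin] at h1
  refine h1.trans (Nat.mul_le_mul_right _ ?_)
  exact Nat.pow_le_pow_right (Nat.pos_of_ne_zero (NeZero.ne m)) (tsolQ_finrank a R)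

theorem powSol_le (p : ℕ) [Fact p.Prime] (j D : ℕ) (a : Y → X →₀ ℤ) {A : Type} [CommRing A]
    (Λ : A →+* Matrix (Fin D) (Fin D) ℤ_[p]) {d : ℕ} (ρ : Γ →* Matrix (Fin d) (Fin d) A)
    {H : Subgroup Γ} {k : ℕ} (R : Rep (X := X) H k)
    (htriv : ∀ h ∈ H, ∀ s t : Fin d, (Λ (ρ h s t)).map (PadicInt.toZModPow j) =
      if s = t then 1 else 0) [hf : Finite (TSol (ZMod (p ^ j)) a H)] :
    Nat.card (PowSol p j D Λ (rowsA a ρ R)) ≤ Nat.card (TSol (ZMod (p ^ j)) a H) ^ (d * D) := by
  classical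
  let φ : ℤ_[p] →+* ZMod (p ^ j) := PadicInt.toZModPow j
  let ψ : A →+* Matrix (Fin D) (Fin D) (ZMod (p ^ j)) := φ.mapMatrix.comp Λ
  have hψ : ∀ h ∈ H, ∀ s t : Fin d, ψ (ρ h s t) = if s = t then 1 else 0 := htriv
  let L : PowSol p j D Λ (rowsA a ρ R) → (Fin d × Fin D → TSol (ZMod (p ^ j)) a H) :=
    fun z q => ⟨fun x => z.1 (R.ix x, q.1) q.2, by
      refine ⟨fun h hh x => ?_, fun y => ?_⟩
      · show z.1 (R.ix (h • x), q.1) q.2 = z.1 (R.ix x, q.1) q.2
        rw [coord_ix_smul R hh x]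
      · have h1 := z.2 _ ⟨y, q.1, rfl⟩
        have h2 := congrFun h1 q.2
        refine Eq.trans ?_ h2
        rw [Finset.sum_apply]
        have h3 := coord_sum (a y).support R.ix (fun x (t : Fin d) i =>
          ((((a y x : ℤ) : Matrix (Fin D) (Fin D) (ZMod (p ^ j))) * ψ (ρ (R.tr x) q.1 t)) *ᵥ
            z.1 (i, t)) q.2)
        have h4 : ∀ x : X, ∑ t : Fin d,
            ((((a y x : ℤ) : Matrix (Fin D) (Fin D) (ZMod (p ^ j))) * ψ (ρ (R.tr x) q.1 t)) *ᵥ
              z.1 (R.ix x, t)) q.2 = ((a y x : ℤ) : ZMod (p ^ j)) * z.1 (R.ix x, q.1) q.2 := by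
          intro x
          rw [Finset.sum_eq_single q.1]
          · rw [hψ _ (R.tr_mem x), if_pos rfl, mul_one]
            have h5 : ((a y x : ℤ) : Matrix (Fin D) (Fin D) (ZMod (p ^ j))) =
                ((a y x : ℤ) : ZMod (p ^ j)) • (1 : Matrix (Fin D) (Fin D) (ZMod (p ^ j))) := by
              rw [← zsmul_one, ← Int.cast_smul_eq_zsmul (ZMod (p ^ j))]
            rw [h5, Matrix.smul_mulVec, Matrix.one_mulVec]
            rfl
          · intro t _ ht
            rw [hψ _ (R.tr_mem x), if_neg (Ne.symm ht), mul_zero, Matrix.zero_mulVec]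
            rfl
          · intro h
            exact absurd (Finset.mem_univ _) h
        simp only [h4] at h3
        refine h3.symm.trans ?_
        refine Finset.sum_congr rfl fun l _ => ?_
        show _ = (ψ (∑ x ∈ (a y).support.filter (fun x => R.ix x = l.1), ((a y x : ℤ) : A) *
          ρ (R.tr x) q.1 l.2) *ᵥ z.1 l) q.2
        rw [map_sum, Matrix.sum_mulVec, Finset.sum_apply]
        refine Finset.sum_congr rfl fun x _ => ?_
        rw [map_mul, map_intCast]⟩
  have hL : Function.Injective L := by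
    intro z w hzw
    apply Subtype.ext
    funext l t
    have h1 := congrFun (congrArg Subtype.val (congrFun hzw (l.2, t))) (R.pt l.1)
    have h2 : z.1 (R.ix (R.pt l.1), l.2) t = w.1 (R.ix (R.pt l.1), l.2) t := h1
    rwa [coord_ix_pt R l.1] at h2
  have h1 := Nat.card_le_card_of_injective L hL
  rw [Nat.card_fun, Nat.card_prod, Nat.card_fin, Nat.card_fin] at h1
  exact h1

end Pool.Agent.ELS
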