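import Pool.Agent.ELS.Defs

/-!
# Representatives

Let `c` be the number of orbits of `Γ` on `X` and let `H` have index `i`.  As the action is free there are
`i * c` orbits of `H`: choose representatives `x_1, ..., x_c` of the orbits of `Γ` and `g_1, ..., g_i` of the
cosets `H g`; then `g_s x_t` are representatives of the orbits of `H`, and every `x` can be written
uniquely as `h g_s x_t`.
-/

namespace Pool.Agent.ELS

theorem exists_rep {Γ X : Type} [Group Γ] [MulAction Γ X]
    (hfree : ∀ (g : Γ) (x : X), g • x = x → g = 1)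
    (hfin : Finite (MulAction.orbitRel.Quotient Γ X)) (H : Subgroup Γ) (hH : H.FiniteIndex) :
    Nonempty (Rep (X := X) H (H.index * Nat.card (MulAction.orbitRel.Quotient Γ X))) := by
  classical
  have := hfin
  have := hH
  -- the cosets
  have hQe := QuotientGroup.quotientRightRelEquivQuotientLeftRel H
  have hQf : Finite (Quotient (QuotientGroup.rightRel H)) :=
    Finite.of_equiv (Γ ⧸ H) hQe.symm
  have hQc : Nat.card (Quotient (QuotientGroup.rightRel H)) = H.index := Nat.card_congr hQe
  have hcard : Nat.card (Quotient (QuotientGroup.rightRel H) × MulAction.orbitRel.Quotient Γ X) =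
      H.index * Nat.card (MulAction.orbitRel.Quotient Γ X) := by
    rw [Nat.card_prod, hQc]
  obtain ⟨E⟩ : Nonempty (Fin (H.index * Nat.card (MulAction.orbitRel.Quotient Γ X)) ≃
      Quotient (QuotientGroup.rightRel H) × MulAction.orbitRel.Quotient Γ X) := by
    rw [← hcard]
    exact ⟨(Finite.equivFin _).symm⟩
  -- the element of the group
  have hex : ∀ x : X, ∃ g : Γ,
      g • (Quotient.out (Quotient.mk _ x : MulAction.orbitRel.Quotient Γ X)) = x := by
    intro x
    have h1 : (Quotient.mk _ x : MulAction.orbitRel.Quotient Γ X) =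
        Quotient.mk _ (Quotient.out (Quotient.mk _ x : MulAction.orbitRel.Quotient Γ X)) :=
      (Quotient.out_eq _).symm
    obtain ⟨g, hg⟩ := Quotient.exact h1
    exact ⟨g, hg⟩
  choose G hG using hex
  have hinj : ∀ (g g' : Γ) (x : X), g • x = g' • x → g = g' := by
    intro g g' x h
    have h1 : (g'⁻¹ * g) • x = x := by
      rw [mul_smul, h, inv_smul_smul]
    have h2 := hfree _ _ h1
    rw [inv_mul_eq_one] at h2
    exact h2.symm
  have hq : ∀ γ : Γ, γ * (Quotient.out (Quotient.mk (QuotientGroup.rightRel H) γ))⁻¹ ∈ H := by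
    intro γ
    have h1 : (Quotient.mk (QuotientGroup.rightRel H)
        (Quotient.out (Quotient.mk (QuotientGroup.rightRel H) γ))) =
        Quotient.mk (QuotientGroup.rightRel H) γ := Quotient.out_eq _
    have h2 := Quotient.exact h1
    exact QuotientGroup.rightRel_apply.1 h2
  have hkey : ∀ h ∈ H, ∀ i : Fin (H.index * Nat.card (MulAction.orbitRel.Quotient Γ X)),
      (Quotient.mk _ (h • ((E i).1.out • (E i).2.out)) : MulAction.orbitRel.Quotient Γ X) =
        (E i).2 ∧
      G (h • ((E i).1.out • (E i).2.out)) = h * (E i).1.out ∧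
      (Quotient.mk (QuotientGroup.rightRel H) (h * (E i).1.out)) = (E i).1 := by
    intro h hh i
    have h1 : (Quotient.mk _ (h • ((E i).1.out • (E i).2.out)) :
        MulAction.orbitRel.Quotient Γ X) = (E i).2 := by
      have h2 : (Quotient.mk _ ((E i).2.out) : MulAction.orbitRel.Quotient Γ X) = (E i).2 :=
        Quotient.out_eq _
      rw [← h2]
      refine Quotient.sound ⟨h * (E i).1.out, ?_⟩
      change (h * (E i).1.out) • _ = _
      rw [h2, mul_smul]
    refine ⟨h1, ?_, ?_⟩
    · have h2 := hG (h • ((E i).1.out • (E i).2.out))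
      rw [h1] at h2
      exact hinj _ _ _ (h2.trans (mul_smul _ _ _).symm)
    · have h2 : (Quotient.mk (QuotientGroup.rightRel H) ((E i).1.out)) = (E i).1 :=
        Quotient.out_eq _
      conv_rhs => rw [← h2]
      refine Quotient.sound ?_
      refine QuotientGroup.rightRel_apply.2 ?_
      have h3 : (E i).1.out * (h * (E i).1.out)⁻¹ = h⁻¹ := by group
      rw [h3]
      exact H.inv_mem hh
  refine ⟨{ pt := fun i => (E i).1.out • (E i).2.out
            ix := fun x => E.symm (Quotient.mk _ (G x), Quotient.mk _ x)
            tr := fun x => G x * (Quotient.out (Quotient.mk (QuotientGroup.rightRel H) (G x)))⁻¹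
            tr_mem := fun x => hq (G x)
            eq := ?_
            ix_smul := ?_
            tr_smul := ?_ }⟩
  · intro x
    simp only [Equiv.apply_symm_apply]
    rw [mul_smul, inv_smul_smul, hG]
  · intro h hh i
    obtain ⟨h1, h2, h3⟩ := hkey h hh i
    rw [h2, h3, h1]
    exact E.symm_apply_apply i
  · intro h hh i
    obtain ⟨h1, h2, h3⟩ := hkey h hh i
    rw [h2, h3]
    group

end Pool.Agent.ELS
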