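import Pool.Agent.ELS.Defs

/-!
# Reduction of solutions modulo `p^j`

Let `S` be the space of solutions over `ℚ_[p]`, of dimension `κ`, and `L` the set of solutions with
entries in `ℤ_[p]`, a submodule of `ι → ℤ_[p]`, so a finitely generated free `ℤ_[p]`-module, of rank `κ` (every
element of `S` becomes integral after multiplication by a power of `p`).  The reduction modulo `p^j` maps
`L` to the solutions over `ZMod (p^j)`, and its kernel is `p^j L`: if all entries of `x ∈ L` are divisible by
`p^j` then `x / p^j ∈ L`.  So `L / p^j L`, of order `p^(j κ)`, embeds.  (Or: choose a basis of `L` and consider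
the combinations with coefficients `0, ..., p^j - 1`: they have different images.)
-/

namespace Pool.Agent.ELS

open Matrix

/-- the integral solutions -/
private def redPow_L (p : ℕ) [Fact p.Prime] {ι : Type*} [Fintype ι] (M : Set (ι → ℤ_[p])) :
    Submodule ℤ_[p] (ι → ℤ_[p]) where
  carrier := {x | ∀ r ∈ M, ∑ l, r l * x l = 0}
  add_mem' := by
    intro x y hx hy r hr
    simp only [Pi.add_apply, mul_add, Finset.sum_add_distrib]
    rw [hx r hr, hy r hr, add_zero]
  zero_mem' := by
    intro r _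
    simp
  smul_mem' := by
    intro c x hx r hr
    simp only [Pi.smul_apply, smul_eq_mul]
    have h1 : ∀ l, r l * (c * x l) = c * (r l * x l) := fun l => by ring
    simp_rw [h1]
    rw [← Finset.mul_sum, hx r hr, mul_zero]

private theorem redPow_div {p : ℕ} [Fact p.Prime] {ι : Type*} [Fintype ι] {M : Set (ι → ℤ_[p])}
    {x : ι → ℤ_[p]} {c : ℤ_[p]} (hc : c ≠ 0) (h : c • x ∈ redPow_L p M) : x ∈ redPow_L p M := by
  intro r hr
  have h1 := h r hr
  simp only [Pi.smul_apply, smul_eq_mul] at h1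
  have h2 : ∀ l, r l * (c * x l) = c * (r l * x l) := fun l => by ring
  simp_rw [h2] at h1
  rw [← Finset.mul_sum] at h1
  exact (mul_eq_zero.1 h1).resolve_left hc

theorem red_pow (p : ℕ) [Fact p.Prime] {ι : Type*} [Fintype ι] (M : Set (ι → ℤ_[p])) (j : ℕ) :
    p ^ (j * Module.finrank ℚ_[p] (ChL.Sol M ℚ_[p] (algebraMap ℤ_[p] ℚ_[p]))) ≤
      Nat.card {x : ι → ZMod (p ^ j) // ∀ r ∈ M, ∑ l, PadicInt.toZModPow j (r l) * x l = 0} := by
  classical
  have hp : p.Prime := Fact.out
  haveI : NeZero (p ^ j) := ⟨(pow_pos hp.pos j).ne'⟩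
  let L := redPow_L p M
  let b := Module.finBasis ℤ_[p] L
  let n := Module.finrank ℤ_[p] L
  let φ : ℤ_[p] →+* ℚ_[p] := algebraMap ℤ_[p] ℚ_[p]
  have hφ : Function.Injective φ := IsFractionRing.injective ℤ_[p] ℚ_[p]
  let v : Fin n → ι → ℚ_[p] := fun i l => φ ((b i).1 l)
  have hκ : Module.finrank ℚ_[p] (ChL.Sol M ℚ_[p] (algebraMap ℤ_[p] ℚ_[p])) ≤ n := by
    have hle : ChL.Sol M ℚ_[p] (algebraMap ℤ_[p] ℚ_[p]) ≤ Submodule.span ℚ_[p] (Set.range v) := by
      intro s hs
      obtain ⟨c, hc⟩ := IsLocalization.exist_integer_multiples_of_finite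
        (nonZeroDivisors ℤ_[p]) s
      choose y hy using hc
      have hc0 : (c : ℤ_[p]) ≠ 0 := nonZeroDivisors.ne_zero c.2
      have hc1 : φ (c : ℤ_[p]) ≠ 0 := by
        intro h
        exact hc0 (hφ (by rw [h, map_zero]))
      have hy' : ∀ l, φ (y l) = φ (c : ℤ_[p]) * s l := by
        intro l
        have := hy l
        rw [Algebra.smul_def] at this
        exact this
      have hyL : y ∈ L := by
        intro r hr
        have h1 : ∑ l, φ (r l) * s l = 0 := hs r hr
        apply hφ
        rw [map_sum, map_zero]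
        simp_rw [map_mul, hy']
        have h3 : ∀ l, φ (r l) * (φ (c : ℤ_[p]) * s l) = φ (c : ℤ_[p]) * (φ (r l) * s l) :=
          fun l => by ring
        simp_rw [h3]
        rw [← Finset.mul_sum, h1, mul_zero]
      have h4 := b.sum_repr ⟨y, hyL⟩
      have h5 : ∀ l, y l = ∑ i, b.repr ⟨y, hyL⟩ i * (b i).1 l := by
        intro l
        have h6 := congrFun (congrArg (fun z : L => z.1) h4) l
        simp only [AddSubmonoidClass.coe_finsetSum, Submodule.coe_smul, Finset.sum_apply,
          Pi.smul_apply, smul_eq_mul] at h6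
        exact h6.symm
      have h7 : s = ∑ i, ((φ (c : ℤ_[p]))⁻¹ * φ (b.repr ⟨y, hyL⟩ i)) • v i := by
        funext l
        simp only [Finset.sum_apply, Pi.smul_apply, smul_eq_mul]
        have h8 : s l = (φ (c : ℤ_[p]))⁻¹ * φ (y l) := by
          rw [hy' l, inv_mul_cancel_left₀ hc1]
        rw [h8, h5 l, map_sum, Finset.mul_sum]
        refine Finset.sum_congr rfl fun i _ => ?_
        rw [map_mul, mul_assoc]
      rw [h7]
      exact Submodule.sum_mem _ fun i _ => Submodule.smul_mem _ _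
        (Submodule.subset_span ⟨i, rfl⟩)
    have h1 := Submodule.finrank_mono hle
    have h2 : Module.finrank ℚ_[p] (Submodule.span ℚ_[p] (Set.range v)) ≤ n := by
      have := finrank_range_le_card (R := ℚ_[p]) v
      simpa [Set.finrank] using this
    exact h1.trans h2
  have hfun : ∀ (c : Fin n → Fin (p ^ j)) (r : ι → ℤ_[p]), r ∈ M →
      ∑ l, PadicInt.toZModPow j (r l) *
        PadicInt.toZModPow j ((∑ i, ((c i : ℕ) : ℤ_[p]) • b i : L).1 l) = 0 := by
    intro c r hr
    have h1 := (∑ i, ((c i : ℕ) : ℤ_[p]) • b i : L).2 r hr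
    have h2 := congrArg (PadicInt.toZModPow (p := p) j) h1
    rw [map_sum, map_zero] at h2
    simp_rw [map_mul] at h2
    exact h2
  let g : (Fin n → Fin (p ^ j)) →
      {x : ι → ZMod (p ^ j) // ∀ r ∈ M, ∑ l, PadicInt.toZModPow j (r l) * x l = 0} :=
    fun c => ⟨fun l => PadicInt.toZModPow j ((∑ i, ((c i : ℕ) : ℤ_[p]) • b i : L).1 l),
      hfun c⟩
  have hg : Function.Injective g := by
    intro c c' hcc
    have h1 : ∀ l, PadicInt.toZModPow (p := p) j ((∑ i, ((c i : ℕ) : ℤ_[p]) • b i : L).1 l)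
        = PadicInt.toZModPow j ((∑ i, ((c' i : ℕ) : ℤ_[p]) • b i : L).1 l) := fun l =>
      congrFun (congrArg Subtype.val hcc) l
    set z : L := ∑ i, (((c i : ℕ) : ℤ_[p]) - ((c' i : ℕ) : ℤ_[p])) • b i with hz
    have hz' : z = ∑ i, ((c i : ℕ) : ℤ_[p]) • b i - ∑ i, ((c' i : ℕ) : ℤ_[p]) • b i := by
      rw [hz, ← Finset.sum_sub_distrib]
      refine Finset.sum_congr rfl fun i _ => ?_
      exact sub_smul (R := ℤ_[p]) (M := L) _ _ _
    have h2 : ∀ l, ∃ y : ℤ_[p], z.1 l = (p : ℤ_[p]) ^ j * y := by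
      intro l
      have h3 : PadicInt.toZModPow (p := p) j (z.1 l) = 0 := by
        rw [hz']
        simp only [AddSubgroupClass.coe_sub, Pi.sub_apply, map_sub]
        rw [h1 l, sub_self]
      rw [← RingHom.mem_ker, PadicInt.ker_toZModPow, Ideal.mem_span_singleton] at h3
      exact h3
    choose y hy using h2
    have hpj : (p : ℤ_[p]) ^ j ≠ 0 := pow_ne_zero _ (by exact_mod_cast hp.ne_zero)
    have hyL : y ∈ L := by
      apply redPow_div hpj
      have : (p : ℤ_[p]) ^ j • y = z.1 := by
        funext l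
        rw [hy l]
        rfl
      rw [this]
      exact z.2
    have h4 : z = (p : ℤ_[p]) ^ j • (⟨y, hyL⟩ : L) := by
      apply Subtype.ext
      funext l
      rw [hy l]
      rfl
    funext i
    have h5 : b.repr z i = ((c i : ℕ) : ℤ_[p]) - ((c' i : ℕ) : ℤ_[p]) := by
      rw [hz, map_sum]
      simp only [map_smul, Module.Basis.repr_self, Finsupp.coe_finsetSum, Finset.sum_apply,
        Finsupp.smul_single, smul_eq_mul, mul_one]
      rw [Finset.sum_eq_single i]
      · simp
      · intro k _ hk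
        rw [Finsupp.single_eq_of_ne]
        exact hk.symm
      · intro h
        exact absurd (Finset.mem_univ i) h
    have h6 : b.repr z i = (p : ℤ_[p]) ^ j * b.repr ⟨y, hyL⟩ i := by
      rw [h4, map_smul]
      rfl
    have h7 : PadicInt.toZModPow (p := p) j (((c i : ℕ) : ℤ_[p]) - ((c' i : ℕ) : ℤ_[p])) = 0 := by
      rw [← RingHom.mem_ker, PadicInt.ker_toZModPow, Ideal.mem_span_singleton, ← h5, h6]
      exact dvd_mul_right _ _
    rw [map_sub, map_natCast, map_natCast, sub_eq_zero] at h7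
    rw [ZMod.natCast_eq_natCast_iff'] at h7
    rw [Nat.mod_eq_of_lt (c i).2, Nat.mod_eq_of_lt (c' i).2] at h7
    exact Fin.ext h7
  have h8 := Nat.card_le_card_of_injective g hg
  have h9 : Nat.card (Fin n → Fin (p ^ j)) = p ^ (j * n) := by
    rw [Nat.card_eq_fintype_card, Fintype.card_fun, Fintype.card_fin, Fintype.card_fin, pow_mul]
  rw [h9] at h8
  exact (Nat.pow_le_pow_right hp.pos (Nat.mul_le_mul_left j hκ)).trans h8

end Pool.Agent.ELS
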