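import Pool.Agent.ELS.NumField
import Pool.Agent.ELS.RedPow

/-!
# Restriction of scalars

`powSol_card`: `x : ι → Fin D → ZMod (p^j)` and its uncurried form `ι × Fin D → ZMod (p^j)`.

`restr`: `sol_finrank_le` for `A → ℝ` (injective) and `A → K` gives `finrank_ℝ (Sol M ℝ) ≤ finrank_K (Sol M K)`;
`D * finrank_K (Sol M K) = finrank_ℚ (Sol M K)`, and by the basis `b` the space `Sol M K` is isomorphic (over
`ℚ`) to the space of solutions `x : ι × Fin D → ℚ` of the equations
`∑_(l,t) (leftMulMatrix b (π (m l))) s t * x (l, t) = 0`, `m ∈ M`, `s : Fin D`.  The coefficients are in the image of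
`ℤ_[p]` in `ℚ_[p]`: they are the entries of the `bigRows`.  `sol_finrank_le` for `ℚ → ℚ` (injective) and
`ℚ → ℚ_[p]` compares the dimensions of the solution spaces over `ℚ` and `ℚ_[p]`.
-/

namespace Pool.Agent.ELS

open Matrix

theorem powSol_card (p : ℕ) [Fact p.Prime] (j D : ℕ) {A : Type*} [CommRing A]
    (Λ : A →+* Matrix (Fin D) (Fin D) ℤ_[p]) {ι : Type*} [Fintype ι] (M : Set (ι → A)) :
    Nat.card {x : ι × Fin D → ZMod (p ^ j) //
      ∀ r ∈ bigRows p Λ M, ∑ l, PadicInt.toZModPow j (r l) * x l = 0} =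
      Nat.card (PowSol p j D Λ M) := by
  refine Nat.card_congr (Equiv.subtypeEquiv (Equiv.curry ι (Fin D) (ZMod (p ^ j))) ?_)
  intro x
  have key : ∀ (m : ι → A) (s : Fin D),
      (∑ l, ((Λ (m l)).map (PadicInt.toZModPow j)) *ᵥ (fun t => x (l, t))) s =
        ∑ q : ι × Fin D, PadicInt.toZModPow j (Λ (m q.1) s q.2) * x q := by
    intro m s
    rw [Finset.sum_apply, Fintype.sum_prod_type]
    rfl
  constructor
  · intro h r hr
    funext s
    exact (key r s).trans (h _ ⟨r, hr, s, rfl⟩)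
  · rintro h r ⟨m, hm, s, rfl⟩
    exact (key m s).symm.trans (congrFun (h m hm) s)

/-- the rows of the big system over `ℚ` -/
private def restrRows {A : Subring ℝ} {K : Type} [Field K] [Algebra ℚ K]
    (π : A →+* K) {D : ℕ} (b : Module.Basis (Fin D) ℚ K) {ι : Type*} (M : Set (ι → A)) :
    Set (ι × Fin D → ℚ) :=
  {r | ∃ m ∈ M, ∃ s : Fin D, r = fun q => Algebra.leftMulMatrix b (π (m q.1)) s q.2}

/-- coordinates -/
private noncomputable def restrCoord {K : Type} [Field K] [Algebra ℚ K] {D : ℕ}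
    (b : Module.Basis (Fin D) ℚ K) (ι : Type*) : (ι → K) →ₗ[ℚ] (ι × Fin D → ℚ) where
  toFun x q := b.repr (x q.1) q.2
  map_add' x y := by
    funext q
    simp
  map_smul' c x := by
    funext q
    simp

private theorem restrCoord_injective {K : Type} [Field K] [Algebra ℚ K] {D : ℕ}
    (b : Module.Basis (Fin D) ℚ K) (ι : Type*) : Function.Injective (restrCoord b ι) := by
  intro x y h
  funext l
  apply b.repr.injective
  ext t
  exact congrFun h (l, t)

private theorem restrCoord_mem {A : Subring ℝ} {K : Type} [Field K] [Algebra ℚ K]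
    (π : A →+* K) {D : ℕ} (b : Module.Basis (Fin D) ℚ K) {ι : Type*} [Fintype ι]
    (M : Set (ι → A)) (x : ι → K) (hx : x ∈ ChL.Sol M K π) :
    restrCoord b ι x ∈ ChL.Sol (restrRows π b M) ℚ (RingHom.id ℚ) := by
  rintro r ⟨m, hm, s, rfl⟩
  have h1 : ∑ l, π (m l) * x l = 0 := hx m hm
  have h2 : ∀ l, ∑ t, Algebra.leftMulMatrix b (π (m l)) s t * b.repr (x l) t =
      b.repr (π (m l) * x l) s := by
    intro l
    have := congrFun (Algebra.leftMulMatrix_mulVec_repr b (π (m l)) (x l)) s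
    exact this
  show ∑ q : ι × Fin D, Algebra.leftMulMatrix b (π (m q.1)) s q.2 * b.repr (x q.1) q.2 = 0
  rw [Fintype.sum_prod_type]
  simp_rw [h2]
  have h3 := congrArg (fun v => b.repr v s) h1
  simpa using h3

theorem restr {A : Subring ℝ} {K : Type} [Field K] [Algebra ℚ K] [Module.Finite ℚ K]
    (π : A →+* K) (p : ℕ) [Fact p.Prime] {D : ℕ} (b : Module.Basis (Fin D) ℚ K)
    (Λ : A →+* Matrix (Fin D) (Fin D) ℤ_[p])
    (hΛ : ∀ (x : A) (s t : Fin D), ((Λ x s t : ℤ_[p]) : ℚ_[p]) =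
        ((Algebra.leftMulMatrix b (π x) s t : ℚ) : ℚ_[p]))
    {ι : Type*} [Fintype ι] (M : Set (ι → A)) :
    D * Module.finrank ℝ (ChL.Sol M ℝ A.subtype) ≤
      Module.finrank ℚ_[p] (ChL.Sol (bigRows p Λ M) ℚ_[p] (algebraMap ℤ_[p] ℚ_[p])) := by
  have h1 := ChL.sol_finrank_le M ℝ K A.subtype Subtype.val_injective π
  have hD : Module.finrank ℚ K = D := by
    rw [Module.finrank_eq_card_basis b, Fintype.card_fin]
  have h2 : D * Module.finrank K (ChL.Sol M K π) = Module.finrank ℚ (ChL.Sol M K π) := by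
    rw [← hD]
    exact Module.finrank_mul_finrank ℚ K (ChL.Sol M K π)
  have h3 : Module.finrank ℚ (ChL.Sol M K π) ≤
      Module.finrank ℚ (ChL.Sol (restrRows π b M) ℚ (RingHom.id ℚ)) := by
    let f : ChL.Sol M K π →ₗ[ℚ] ChL.Sol (restrRows π b M) ℚ (RingHom.id ℚ) :=
      { toFun := fun x => ⟨restrCoord b ι x.1, restrCoord_mem π b M x.1 x.2⟩
        map_add' := fun x y => Subtype.ext (map_add (restrCoord b ι) x.1 y.1)
        map_smul' := fun c x => Subtype.ext (map_smul (restrCoord b ι) c x.1) }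
    refine LinearMap.finrank_le_finrank_of_injective (f := f) ?_
    intro x y h
    exact Subtype.ext (restrCoord_injective b ι (congrArg Subtype.val h))
  have h4 := ChL.sol_finrank_le (restrRows π b M) ℚ ℚ_[p] (RingHom.id ℚ) (fun _ _ h => h)
    (algebraMap ℚ ℚ_[p])
  have h5 : ChL.Sol (restrRows π b M) ℚ_[p] (algebraMap ℚ ℚ_[p]) =
      ChL.Sol (bigRows p Λ M) ℚ_[p] (algebraMap ℤ_[p] ℚ_[p]) := by
    have key : ∀ (m : ι → A) (s : Fin D) (q : ι × Fin D),
        algebraMap ℚ ℚ_[p] (Algebra.leftMulMatrix b (π (m q.1)) s q.2) =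
          algebraMap ℤ_[p] ℚ_[p] (Λ (m q.1) s q.2) := by
      intro m s q
      rw [eq_ratCast, ← hΛ]
      rfl
    ext x
    constructor
    · rintro h r ⟨m, hm, s, rfl⟩
      have h6 := h _ ⟨m, hm, s, rfl⟩
      rw [← h6]
      exact Finset.sum_congr rfl fun q _ => by rw [key m s q]
    · rintro h r ⟨m, hm, s, rfl⟩
      have h6 := h _ ⟨m, hm, s, rfl⟩
      rw [← h6]
      exact Finset.sum_congr rfl fun q _ => by rw [key m s q]
  rw [h5] at h4
  calc D * Module.finrank ℝ (ChL.Sol M ℝ A.subtype)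
      ≤ D * Module.finrank K (ChL.Sol M K π) := Nat.mul_le_mul_left _ h1
    _ = Module.finrank ℚ (ChL.Sol M K π) := h2
    _ ≤ _ := h3
    _ ≤ _ := h4

end Pool.Agent.ELS
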