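import Pool.Agent.ELS.Lift
import Pool.Agent.ELS.Restr
import Pool.Agent.ELS.RepEx
import Pool.Agent.ELS.Coord

/-!
# The comparison theorem

The dimension of the space of solutions of an integral linear system in a representation of `Γ` of
dimension `d`, equivariant under a deep subgroup `H` of finite index, is at most `d` times the dimension
of the space of invariant rational solutions, up to a small multiple of the index.
-/

namespace Pool.Agent.ELS

open Matrix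

theorem comparison {Γ X Y : Type} [Group Γ] (hΓ : Group.FG Γ) [MulAction Γ X]
    (hfree : ∀ (g : Γ) (x : X), g • x = x → g = 1)
    (hfin : Finite (MulAction.orbitRel.Quotient Γ X)) (a : Y → X →₀ ℤ) (B : ℕ)
    (hB : ∀ y, ∑ x ∈ (a y).support, |a y x| ≤ (B : ℤ)) (d : ℕ)
    (ρ : Γ →* Matrix (Fin d) (Fin d) ℝ) (N : ℕ) :
    ∃ Γ₀ : Subgroup Γ, Γ₀.FiniteIndex ∧ ∀ H : Subgroup Γ, H ≤ Γ₀ → H.FiniteIndex →
      N * Module.finrank ℝ (ESol ℝ a (fun g => ρ g) H) ≤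
        N * (d * Module.finrank ℚ (TSol ℚ a H)) + H.index := by
  obtain ⟨c, hc⟩ : ∃ c, c = Nat.card (MulAction.orbitRel.Quotient Γ X) := ⟨_, rfl⟩
  obtain ⟨B', hB'⟩ : ∃ B', B' = B + 1 := ⟨_, rfl⟩
  have hBB : ∀ y, ∑ x ∈ (a y).support, |a y x| ≤ (B' : ℤ) := fun y => by
    have := hB y
    rw [hB']
    push_cast
    omega
  obtain ⟨T, hT⟩ := exists_lift hΓ ρ
  obtain ⟨A, K, _, _, _, π, p, hp, D, b, Λ, hTA, hD, hΛ⟩ := exists_padic T
  obtain ⟨ρA, hρA⟩ := hT A hTA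
  obtain ⟨q, hq⟩ : ∃ q, q = d * B' * c + 1 := ⟨_, rfl⟩
  obtain ⟨j, hj⟩ : ∃ j, j = N * q := ⟨_, rfl⟩
  obtain ⟨Γ₀, hΓ₀, hcongr⟩ := exists_congr p j D Λ ρA
  refine ⟨Γ₀, hΓ₀, fun H hH hHi => ?_⟩
  obtain ⟨R⟩ := exists_rep hfree hfin H hHi
  have hp2 : 2 ≤ p := hp.out.two_le
  have hne : NeZero (p ^ j) := ⟨by positivity⟩
  obtain ⟨κ, hκ⟩ : ∃ κ, κ = Module.finrank ℝ (ESol ℝ a (fun g => ρ g) H) := ⟨_, rfl⟩
  obtain ⟨σ, hσ⟩ : ∃ σ, σ = Module.finrank ℚ (TSol ℚ a H) := ⟨_, rfl⟩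
  obtain ⟨hfinT, hcard⟩ := tsol_card a B' (by omega) hBB R (p ^ j)
  have h1 := esol_finrank a A ρA R
  have hfun : (fun g => (ρA g).map A.subtype) = fun g => ρ g := by
    funext g
    exact hρA g
  rw [hfun, ← hκ] at h1
  have h2 := restr π p b Λ hΛ (rowsA a ρA R)
  have h3 := red_pow p (bigRows p Λ (rowsA a ρA R)) j
  rw [powSol_card] at h3
  have h4 := powSol_le p j D a Λ ρA R (fun h hh => hcongr h (hH hh))
  rw [← hσ, ← hc] at hcard
  have h5 : p ^ (j * (D * κ)) ≤ p ^ ((j * σ + B' * (H.index * c)) * (d * D)) := by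
    calc p ^ (j * (D * κ)) ≤ p ^ (j * Module.finrank ℚ_[p]
          (ChL.Sol (bigRows p Λ (rowsA a ρA R)) ℚ_[p] (algebraMap ℤ_[p] ℚ_[p]))) :=
        Nat.pow_le_pow_right (by omega) (Nat.mul_le_mul_left j
          ((Nat.mul_le_mul_left D h1).trans h2))
      _ ≤ _ := h3
      _ ≤ Nat.card (TSol (ZMod (p ^ j)) a H) ^ (d * D) := h4
      _ ≤ ((p ^ j) ^ σ * B' ^ (H.index * c)) ^ (d * D) := Nat.pow_le_pow_left hcard _
      _ ≤ ((p ^ j) ^ σ * (p ^ B') ^ (H.index * c)) ^ (d * D) := by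
        refine Nat.pow_le_pow_left (Nat.mul_le_mul_left _ (Nat.pow_le_pow_left ?_ _)) _
        exact (Nat.lt_pow_self (by omega)).le
      _ = p ^ ((j * σ + B' * (H.index * c)) * (d * D)) := by
        rw [← pow_mul, ← pow_mul, ← pow_add, ← pow_mul]
  have h6 : j * (D * κ) ≤ (j * σ + B' * (H.index * c)) * (d * D) :=
    (Nat.pow_le_pow_iff_right (by omega)).1 h5
  have h7 : j * κ ≤ (j * σ + B' * (H.index * c)) * d := by
    have h8 : D * (j * κ) ≤ D * ((j * σ + B' * (H.index * c)) * d) := by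
      calc D * (j * κ) = j * (D * κ) := by ring
        _ ≤ _ := h6
        _ = _ := by ring
    exact Nat.le_of_mul_le_mul_left h8 hD
  have hq0 : 0 < q := by omega
  have h9 : q * (N * κ) ≤ q * (N * (d * σ) + H.index) := by
    calc q * (N * κ) = j * κ := by rw [hj]; ring
      _ ≤ (j * σ + B' * (H.index * c)) * d := h7
      _ = q * (N * (d * σ)) + (d * B' * c) * H.index := by rw [hj]; ring
      _ ≤ q * (N * (d * σ)) + q * H.index :=
        Nat.add_le_add_left (Nat.mul_le_mul_right _ (by omega)) _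
      _ = _ := by ring
  rw [← hκ, ← hσ]
  exact Nat.le_of_mul_le_mul_left h9 hq0

end Pool.Agent.ELS
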