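import Pool.Agent.ChL.SolRank

/-!
# Equivariant integral linear systems: definitions

`X` is the set of unknowns, `a : Y → X →₀ ℤ` a family of integral linear equations.
-/

namespace Pool.Agent.ELS

open Matrix

/-- The functions `f : X → R^d` with `f (h x) = ρ(h) f(x)` for `h ∈ H` which satisfy all the
equations. -/
def ESol (R : Type*) [CommRing R] {Γ X Y : Type*} [Group Γ] [MulAction Γ X] (a : Y → X →₀ ℤ)
    {d : ℕ} (ρ : Γ → Matrix (Fin d) (Fin d) R) (H : Subgroup Γ) :
    Submodule R (X → Fin d → R) where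
  carrier := {f | (∀ h ∈ H, ∀ x : X, f (h • x) = ρ h *ᵥ f x) ∧
    ∀ y : Y, ∑ x ∈ (a y).support, ((a y x : ℤ) : R) • f x = 0}
  add_mem' := by
    rintro f g ⟨hf, hf'⟩ ⟨hg, hg'⟩
    refine ⟨fun h hh x => ?_, fun y => ?_⟩
    · simp only [Pi.add_apply]
      rw [hf h hh, hg h hh, Matrix.mulVec_add]
    · simp only [Pi.add_apply, smul_add, Finset.sum_add_distrib]
      rw [hf', hg', add_zero]
  zero_mem' := by
    refine ⟨fun h hh x => ?_, fun y => ?_⟩
    · simp
    · simp
  smul_mem' := by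
    rintro c f ⟨hf, hf'⟩
    refine ⟨fun h hh x => ?_, fun y => ?_⟩
    · simp only [Pi.smul_apply]
      rw [hf h hh, Matrix.mulVec_smul]
    · simp only [Pi.smul_apply]
      have h1 : ∀ x, ((a y x : ℤ) : R) • c • f x = c • (((a y x : ℤ) : R) • f x) := fun x =>
        smul_comm _ _ _
      simp_rw [h1]
      rw [← Finset.smul_sum, hf', smul_zero]

/-- The functions `f : X → R`, invariant under `H`, which satisfy all the equations. -/
def TSol (R : Type*) [CommRing R] {Γ X Y : Type*} [Group Γ] [MulAction Γ X] (a : Y → X →₀ ℤ)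
    (H : Subgroup Γ) : Submodule R (X → R) where
  carrier := {f | (∀ h ∈ H, ∀ x : X, f (h • x) = f x) ∧
    ∀ y : Y, ∑ x ∈ (a y).support, ((a y x : ℤ) : R) * f x = 0}
  add_mem' := by
    rintro f g ⟨hf, hf'⟩ ⟨hg, hg'⟩
    refine ⟨fun h hh x => ?_, fun y => ?_⟩
    · simp only [Pi.add_apply]
      rw [hf h hh, hg h hh]
    · simp only [Pi.add_apply, mul_add, Finset.sum_add_distrib]
      rw [hf', hg', add_zero]
  zero_mem' := by
    refine ⟨fun h hh x => rfl, fun y => ?_⟩
    simp
  smul_mem' := by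
    rintro c f ⟨hf, hf'⟩
    refine ⟨fun h hh x => ?_, fun y => ?_⟩
    · simp only [Pi.smul_apply]
      rw [hf h hh]
    · simp only [Pi.smul_apply, smul_eq_mul]
      have h1 : ∀ x, ((a y x : ℤ) : R) * (c * f x) = c * (((a y x : ℤ) : R) * f x) := fun x => by
        ring
      simp_rw [h1]
      rw [← Finset.mul_sum, hf', mul_zero]

/-- Solutions over `ZMod m` of a set of linear equations with integral coefficients. -/
def ModSol (m : ℕ) {ι : Type*} [Fintype ι] (M : Set (ι → ℤ)) : Set (ι → ZMod m) :=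
  {x | ∀ r ∈ M, ∑ l, ((r l : ℤ) : ZMod m) * x l = 0}

/-- Solutions in `(ZMod (p^j))^D` of a set of linear equations with coefficients in `A`, where `A` acts
by matrices over the `p`-adic integers. -/
def PowSol (p : ℕ) [Fact p.Prime] (j D : ℕ) {A : Type*} [CommRing A]
    (Λ : A →+* Matrix (Fin D) (Fin D) ℤ_[p]) {ι : Type*} [Fintype ι] (M : Set (ι → A)) :
    Set (ι → Fin D → ZMod (p ^ j)) :=
  {x | ∀ r ∈ M, ∑ l, ((Λ (r l)).map (PadicInt.toZModPow j)) *ᵥ x l = 0}

/-- The rows of the big system over the `p`-adic integers. -/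
def bigRows (p : ℕ) [Fact p.Prime] {D : ℕ} {A : Type*} [CommRing A]
    (Λ : A →+* Matrix (Fin D) (Fin D) ℤ_[p]) {ι : Type*} (M : Set (ι → A)) :
    Set (ι × Fin D → ℤ_[p]) :=
  {r | ∃ m ∈ M, ∃ s : Fin D, r = fun q => Λ (m q.1) s q.2}

/-- A system of representatives of the orbits of `H`, with the coordinates of the elements of `X`. -/
structure Rep {Γ X : Type*} [Group Γ] [MulAction Γ X] (H : Subgroup Γ) (k : ℕ) where
  /-- the representatives -/
  pt : Fin k → X
  /-- the number of the orbit of `x` -/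
  ix : X → Fin k
  /-- the element moving the representative to `x` -/
  tr : X → Γ
  tr_mem : ∀ x, tr x ∈ H
  eq : ∀ x, x = tr x • pt (ix x)
  ix_smul : ∀ h ∈ H, ∀ i, ix (h • pt i) = i
  tr_smul : ∀ h ∈ H, ∀ i, tr (h • pt i) = h

/-- The rows of the system in the coordinates given by `Rep`. -/
noncomputable def rowsA {Γ X Y : Type*} [Group Γ] [MulAction Γ X] (a : Y → X →₀ ℤ) {A : Type*}
    [CommRing A] {d : ℕ} (ρ : Γ →* Matrix (Fin d) (Fin d) A) {H : Subgroup Γ} {k : ℕ}
    (R : Rep (X := X) H k) : Set (Fin k × Fin d → A) := by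
  classical
  exact {r | ∃ (y : Y) (s : Fin d), r = fun q =>
    ∑ x ∈ (a y).support.filter (fun x => R.ix x = q.1), ((a y x : ℤ) : A) * ρ (R.tr x) s q.2}

/-- The rows of the scalar system in the coordinates given by `Rep`. -/
noncomputable def rowsZ {Γ X Y : Type*} [Group Γ] [MulAction Γ X] (a : Y → X →₀ ℤ)
    {H : Subgroup Γ} {k : ℕ} (R : Rep (X := X) H k) : Set (Fin k → ℤ) := by
  classical
  exact {r | ∃ y : Y, r = fun i => ∑ x ∈ (a y).support.filter (fun x => R.ix x = i), a y x}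

end Pool.Agent.ELS
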