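import Pool.Agent.ELS.Defs

/-!
# Solutions modulo `m` of integral linear equations

`det_le`: expand the determinant: `|det S| ≤ ∑_σ ∏ |S i (σ i)| ≤ ∏_i ∑_j |S i j|`.

`card_ker_det`: `S` acts on `(ZMod m)^r`; a solution `x` lifts to an integral vector `X` with
`S X = m Y`, and `x ↦ Y` is an injection of the kernel into `ℤ^r / S ℤ^r`, a group of order `|det S|`.

`exists_minor`: rows and columns of a non-zero minor of maximal size; over `ℚ` the space of solutions has
dimension `card ι - rank`.

`modSol_card`: let `S` be the minor of `exists_minor`.  A solution `x` is determined by its values at the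
`card ι - r` indices outside the range of `cols` (at most `m ^ (card ι - r)` choices) and, for given such
values, two solutions differ at the indices in `cols` by an element of the kernel of `S` modulo `m`
(at most `|det S| ≤ B^r ≤ B^(card ι)` choices).
-/

namespace Pool.Agent.ELS

open Matrix

theorem det_le {r : ℕ} (S : Matrix (Fin r) (Fin r) ℤ) (B : ℕ) (hB : ∀ i, ∑ j, |S i j| ≤ B) :
    |S.det| ≤ (B : ℤ) ^ r := by
  classical
  rw [← Matrix.det_transpose, Matrix.det_apply']
  have h1 : |∑ σ : Equiv.Perm (Fin r), ((Equiv.Perm.sign σ : ℤ) : ℤ) * ∏ i, Sᵀ (σ i) i| ≤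
      ∑ σ : Equiv.Perm (Fin r), ∏ i, |S i (σ i)| := by
    refine (Finset.abs_sum_le_sum_abs _ _).trans (Finset.sum_le_sum fun σ _ => ?_)
    rw [abs_mul, Finset.abs_prod]
    have h2 : |((Equiv.Perm.sign σ : ℤ) : ℤ)| = 1 := by
      rcases Int.units_eq_one_or (Equiv.Perm.sign σ) with h | h <;> simp [h]
    rw [h2, one_mul]
    exact le_of_eq (Finset.prod_congr rfl fun i _ => rfl)
  have h2 : ∑ σ : Equiv.Perm (Fin r), ∏ i, |S i (σ i)| ≤
      ∑ f : Fin r → Fin r, ∏ i, |S i (f i)| := by
    have hinj : Function.Injective (fun σ : Equiv.Perm (Fin r) => (σ : Fin r → Fin r)) :=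
      DFunLike.coe_injective
    rw [← Finset.sum_image (s := Finset.univ) (g := fun σ : Equiv.Perm (Fin r) =>
      (σ : Fin r → Fin r)) (f := fun f : Fin r → Fin r => ∏ i, |S i (f i)|)
      (fun a _ b _ h => hinj h)]
    exact Finset.sum_le_sum_of_subset_of_nonneg (Finset.subset_univ _)
      (fun f _ _ => Finset.prod_nonneg fun i _ => abs_nonneg _)
  have h3 : ∑ f : Fin r → Fin r, ∏ i, |S i (f i)| = ∏ i, ∑ j, |S i j| := by
    rw [Finset.prod_univ_sum]
    simp
  refine h1.trans (h2.trans ?_)
  rw [h3]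
  calc ∏ i, ∑ j, |S i j| ≤ ∏ _i : Fin r, (B : ℤ) :=
        Finset.prod_le_prod (fun i _ => Finset.sum_nonneg fun j _ => abs_nonneg _)
          (fun i _ => hB i)
    _ = (B : ℤ) ^ r := by simp

theorem card_ker_det {r : ℕ} (S : Matrix (Fin r) (Fin r) ℤ) (hS : S.det ≠ 0) (m : ℕ)
    [NeZero m] :
    Nat.card {x : Fin r → ZMod m // ∀ i, ∑ j, ((S i j : ℤ) : ZMod m) * x j = 0} ≤
      S.det.natAbs := by
  classical
  have hinj : Function.Injective S.mulVecLin := by
    intro x y hxy
    exact Matrix.mulVec_injective_of_det_ne_zero hS hxy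
  let e : (Fin r → ℤ) ≃ₗ[ℤ] LinearMap.range S.mulVecLin := LinearEquiv.ofInjective _ hinj
  have hcard : S.det.natAbs = Nat.card ((Fin r → ℤ) ⧸ LinearMap.range S.mulVecLin) := by
    rw [← Submodule.natAbs_det_equiv (LinearMap.range S.mulVecLin) e]
    have h1 : (LinearMap.range S.mulVecLin).subtype ∘ₗ AddMonoidHom.toIntLinearMap
        (e : (Fin r → ℤ) →+ LinearMap.range S.mulVecLin) = S.mulVecLin := by
      ext x i
      rfl
    rw [h1, ← Matrix.toLin'_apply', LinearMap.det_toLin']
  have hpos : 0 < Nat.card ((Fin r → ℤ) ⧸ LinearMap.range S.mulVecLin) := by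
    rw [← hcard]
    exact Int.natAbs_pos.2 hS
  haveI : Finite ((Fin r → ℤ) ⧸ LinearMap.range S.mulVecLin) := Nat.finite_of_card_ne_zero hpos.ne'
  rw [hcard]
  -- the lift
  have hlift : ∀ x : {x : Fin r → ZMod m // ∀ i, ∑ j, ((S i j : ℤ) : ZMod m) * x j = 0},
      ∃ Y : Fin r → ℤ, ∀ i, ∑ j, S i j * ((x.1 j).val : ℤ) = m * Y i := by
    intro x
    have h1 : ∀ i, ∃ y : ℤ, ∑ j, S i j * ((x.1 j).val : ℤ) = m * y := by
      intro i
      have h2 : ((∑ j, S i j * ((x.1 j).val : ℤ) : ℤ) : ZMod m) = 0 := by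
        push_cast
        simp only [ZMod.natCast_val, ZMod.cast_id', id_eq]
        exact x.2 i
      exact (ZMod.intCast_zmod_eq_zero_iff_dvd _ m).1 h2
    choose y hy using h1
    exact ⟨y, hy⟩
  choose Y hY using hlift
  refine Nat.card_le_card_of_injective
    (fun x => (Submodule.Quotient.mk (Y x) : (Fin r → ℤ) ⧸ LinearMap.range S.mulVecLin)) ?_
  intro x x' hxx
  rw [Submodule.Quotient.eq] at hxx
  obtain ⟨W, hW⟩ := hxx
  have h1 : (fun j => ((x.1 j).val : ℤ) - ((x'.1 j).val : ℤ)) = fun j => (m : ℤ) * W j := by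
    apply hinj
    funext i
    have h2 := hY x i
    have h3 := hY x' i
    have h4 : ∑ j, S i j * W j = Y x i - Y x' i := congrFun hW i
    show ∑ j, S i j * (((x.1 j).val : ℤ) - ((x'.1 j).val : ℤ)) = ∑ j, S i j * ((m : ℤ) * W j)
    have h5 : ∑ j, S i j * ((m : ℤ) * W j) = m * ∑ j, S i j * W j := by
      rw [Finset.mul_sum]
      exact Finset.sum_congr rfl fun j _ => by ring
    rw [h5, h4, mul_sub, ← h2, ← h3, ← Finset.sum_sub_distrib]
    exact Finset.sum_congr rfl fun j _ => by ring
  apply Subtype.ext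
  funext j
  have h2 := congrFun h1 j
  have h3 : (((x.1 j).val : ℤ) - ((x'.1 j).val : ℤ) : ℤ) = (m : ℤ) * W j := h2
  have h4 : ((((x.1 j).val : ℤ) - ((x'.1 j).val : ℤ) : ℤ) : ZMod m) = 0 := by
    rw [h3]
    simp
  push_cast at h4
  simp only [ZMod.natCast_val, ZMod.cast_id', id_eq] at h4
  exact sub_eq_zero.1 h4

/-- a matrix with independent rows over a field has independent columns -/
private theorem intKer_cols {κ N : Type*} [Fintype κ] [Fintype N] [DecidableEq κ]
    (B : Matrix κ N ℚ) (h : LinearIndependent ℚ B.row) :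
    ∃ c : κ → N, Function.Injective c ∧ (B.submatrix id c).det ≠ 0 := by
  classical
  have hrk : B.rank = Fintype.card κ := h.rank_matrix
  obtain ⟨μ, c, hcinj, hcsp, hcli⟩ := exists_linearIndependent' ℚ (fun j : N => B.col j)
  haveI : Finite μ := Finite.of_injective c hcinj
  haveI : Fintype μ := Fintype.ofFinite μ
  have hcard : Fintype.card μ = Fintype.card κ := by
    have h1 := finrank_span_eq_card hcli
    have h2 : Module.finrank ℚ (Submodule.span ℚ (Set.range B.col)) = Fintype.card κ := by
      rw [← Matrix.rank_eq_finrank_span_cols, hrk]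
    have h3 : Submodule.span ℚ (Set.range ((fun j : N => B.col j) ∘ c))
        = Submodule.span ℚ (Set.range B.col) := hcsp
    rw [h3, h2] at h1
    exact h1.symm
  obtain ⟨e⟩ : Nonempty (κ ≃ μ) := ⟨Fintype.equivOfCardEq hcard.symm⟩
  refine ⟨c ∘ e, hcinj.comp e.injective, ?_⟩
  have hD : IsUnit (B.submatrix id (c ∘ e)) := by
    rw [← Matrix.linearIndependent_cols_iff_isUnit]
    exact hcli.comp e e.injective
  exact ((Matrix.isUnit_iff_isUnit_det _).1 hD).ne_zero

theorem exists_minor {ι : Type*} [Fintype ι] (M : Set (ι → ℤ)) :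
    ∃ (r : ℕ) (row : Fin r → ι → ℤ) (col : Fin r → ι), (∀ i, row i ∈ M) ∧
      Function.Injective col ∧ Matrix.det (Matrix.of fun i j => row i (col j)) ≠ 0 ∧
      r + Module.finrank ℚ (ChL.Sol M ℚ (Int.castRingHom ℚ)) = Fintype.card ι := by
  classical
  obtain ⟨κ, a, -, hsp, hli⟩ :=
    exists_linearIndependent' ℚ (fun m : M => (fun j => ((m.1 j : ℤ) : ℚ) : ι → ℚ))
  haveI : Finite κ := hli.finite_of_isNoetherian
  haveI : Fintype κ := Fintype.ofFinite κ
  let e : Fin (Fintype.card κ) ≃ κ := (Fintype.equivFin κ).symm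
  let row : Fin (Fintype.card κ) → ι → ℤ := fun i => (a (e i)).1
  let B : Matrix (Fin (Fintype.card κ)) ι ℚ := fun i j => ((row i j : ℤ) : ℚ)
  have hB : LinearIndependent ℚ B.row := hli.comp e e.injective
  obtain ⟨col, hcol, hdet⟩ := intKer_cols B hB
  refine ⟨Fintype.card κ, row, col, fun i => (a (e i)).2, hcol, ?_, ?_⟩
  · intro h0
    apply hdet
    have h1 : B.submatrix id col = (Matrix.of fun i j => row i (col j)).map (Int.castRingHom ℚ) :=
      rfl
    rw [h1, ← RingHom.mapMatrix_apply, ← RingHom.map_det, h0, map_zero]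
  · have heq : ChL.Sol M ℚ (Int.castRingHom ℚ) = LinearMap.ker B.mulVecLin := by
      apply le_antisymm
      · intro x hx
        rw [LinearMap.mem_ker]
        funext y
        exact hx (a (e y)).1 (a (e y)).2
      · intro x hx m hm
        rw [LinearMap.mem_ker] at hx
        have h1 : (fun j => ((m j : ℤ) : ℚ) : ι → ℚ) ∈ Submodule.span ℚ (Set.range
            ((fun m : M => (fun j => ((m.1 j : ℤ) : ℚ) : ι → ℚ)) ∘ a)) := by
          rw [hsp]
          exact Submodule.subset_span ⟨⟨m, hm⟩, rfl⟩
        have h2 : ∀ v ∈ Submodule.span ℚ (Set.range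
            ((fun m : M => (fun j => ((m.1 j : ℤ) : ℚ) : ι → ℚ)) ∘ a)),
            ∑ j, v j * x j = 0 := by
          intro v hv
          induction hv using Submodule.span_induction with
          | mem v hv =>
            obtain ⟨y, rfl⟩ := hv
            have h3 := congrFun hx (e.symm y)
            have h4 : ∑ j, ((row (e.symm y) j : ℤ) : ℚ) * x j = 0 := h3
            have h5 : row (e.symm y) = (a y).1 := by
              show (a (e (e.symm y))).1 = _
              rw [Equiv.apply_symm_apply]
            rw [h5] at h4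
            exact h4
          | zero => simp
          | add v w _ _ hv hw =>
            simp only [Pi.add_apply, add_mul, Finset.sum_add_distrib]
            rw [hv, hw, add_zero]
          | smul c v _ hv =>
            simp only [Pi.smul_apply, smul_eq_mul, mul_assoc]
            rw [← Finset.mul_sum, hv, mul_zero]
        exact h2 _ h1
    rw [heq]
    have h1 := LinearMap.finrank_range_add_finrank_ker B.mulVecLin
    have h3 : Module.finrank ℚ (LinearMap.range B.mulVecLin) = Fintype.card κ := by
      have h4 : B.rank = Fintype.card (Fin (Fintype.card κ)) := hB.rank_matrix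
      rw [Fintype.card_fin] at h4
      exact h4
    rw [h3, Module.finrank_fintype_fun_eq_card] at h1
    exact h1

theorem modSol_card {ι : Type*} [Fintype ι] (M : Set (ι → ℤ)) (B : ℕ) (hB : 1 ≤ B)
    (hM : ∀ r ∈ M, ∑ l, |r l| ≤ (B : ℤ)) (m : ℕ) [NeZero m] :
    Nat.card (ModSol m M) ≤
      m ^ Module.finrank ℚ (ChL.Sol M ℚ (Int.castRingHom ℚ)) * B ^ Fintype.card ι := by
  classical
  obtain ⟨r, row, col, hrow, hcol, hdet, hcard⟩ := exists_minor M
  set S : Matrix (Fin r) (Fin r) ℤ := Matrix.of fun i j => row i (col j) with hSdef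
  have hle : r ≤ Fintype.card ι := by omega
  have hrB : ∀ i, ∑ j, |S i j| ≤ (B : ℤ) := by
    intro i
    refine le_trans ?_ (hM (row i) (hrow i))
    have h1 : ∑ j, |S i j| = ∑ l ∈ Finset.univ.image col, |row i l| := by
      rw [Finset.sum_image (fun a _ b _ h => hcol h)]
      rfl
    rw [h1]
    exact Finset.sum_le_sum_of_subset_of_nonneg (Finset.subset_univ _)
      (fun l _ _ => abs_nonneg _)
  have hdetB : S.det.natAbs ≤ B ^ r := by
    have h1 := det_le S B hrB
    zify
    exact h1
  let K := {x : Fin r → ZMod m // ∀ i, ∑ j, ((S i j : ℤ) : ZMod m) * x j = 0}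
  have hK : Nat.card K ≤ S.det.natAbs := card_ker_det S hdet m
  let C := {l : ι // l ∉ Set.range col}
  have hC : Nat.card (C → ZMod m) = m ^ Module.finrank ℚ (ChL.Sol M ℚ (Int.castRingHom ℚ)) := by
    rw [Nat.card_fun, Nat.card_zmod]
    congr 1
    have h1 : Nat.card C = Fintype.card ι - Fintype.card (Fin r) := by
      rw [Nat.card_eq_fintype_card, Fintype.card_subtype_compl]
      congr 1
      exact Set.card_range_of_injective hcol
    rw [h1, Fintype.card_fin]
    omega
  -- base points
  let P : (C → ZMod m) → ModSol m M → Prop := fun y x => ∀ l : C, x.1 l.1 = y l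
  have hzero : (0 : ι → ZMod m) ∈ ModSol m M := by
    intro r _
    simp
  let base : (C → ZMod m) → ModSol m M := fun y =>
    if h : ∃ x, P y x then h.choose else ⟨0, hzero⟩
  have hbase : ∀ y x, P y x → P y (base y) := by
    intro y x hx
    have h : ∃ x, P y x := ⟨x, hx⟩
    show P y (if h : ∃ x, P y x then h.choose else ⟨0, hzero⟩)
    rw [dif_pos h]
    exact h.choose_spec
  let res : ModSol m M → C → ZMod m := fun x l => x.1 l.1
  have hres : ∀ x, P (res x) x := fun x l => rfl
  have hker : ∀ x : ModSol m M, ∀ i, ∑ j, ((S i j : ℤ) : ZMod m) *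
      (x.1 (col j) - (base (res x)).1 (col j)) = 0 := by
    intro x i
    have h1 := x.2 (row i) (hrow i)
    have h2 := (base (res x)).2 (row i) (hrow i)
    have h3 : ∑ l, ((row i l : ℤ) : ZMod m) * (x.1 l - (base (res x)).1 l) = 0 := by
      simp only [mul_sub, Finset.sum_sub_distrib]
      rw [h1, h2, sub_zero]
    have h4 : ∑ l, ((row i l : ℤ) : ZMod m) * (x.1 l - (base (res x)).1 l) =
        ∑ l ∈ Finset.univ.image col, ((row i l : ℤ) : ZMod m) *
          (x.1 l - (base (res x)).1 l) := by
      symm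
      apply Finset.sum_subset (Finset.subset_univ _)
      intro l _ hl
      have hl' : l ∉ Set.range col := by
        rintro ⟨j, rfl⟩
        exact hl (Finset.mem_image_of_mem _ (Finset.mem_univ j))
      have h5 := hbase (res x) x (hres x) ⟨l, hl'⟩
      have h6 : (base (res x)).1 l = x.1 l := h5
      rw [h6, sub_self, mul_zero]
    rw [h4, Finset.sum_image (fun a _ b _ h => hcol h)] at h3
    exact h3
  have hinj : Function.Injective (fun x : ModSol m M =>
      ((res x, ⟨fun j => x.1 (col j) - (base (res x)).1 (col j), hker x⟩) :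
        (C → ZMod m) × K)) := by
    intro x x' hxx
    simp only [Prod.mk.injEq] at hxx
    obtain ⟨h1, h2⟩ := hxx
    apply Subtype.ext
    funext l
    by_cases hl : l ∈ Set.range col
    · obtain ⟨j, rfl⟩ := hl
      have h3 := congrFun (congrArg Subtype.val h2) j
      have h4 : x.1 (col j) - (base (res x)).1 (col j) =
          x'.1 (col j) - (base (res x')).1 (col j) := h3
      rw [h1] at h4
      exact sub_left_injective h4
    · exact congrFun h1 ⟨l, hl⟩
  have h1 := Nat.card_le_card_of_injective _ hinj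
  rw [Nat.card_prod, hC] at h1
  refine h1.trans (Nat.mul_le_mul_left _ ((hK.trans hdetB).trans ?_))
  exact Nat.pow_le_pow_right hB hle

end Pool.Agent.ELS
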