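import Pool.Agent.ELS.Defs

/-!
# Representations over finitely generated subrings, and congruence subgroups

`exists_lift`: `T` is the set of the entries of `ρ s` and `ρ s⁻¹` for `s` in a finite set of generators.

`exists_congr`: the kernel of a homomorphism to a finite monoid.
-/

namespace Pool.Agent.ELS

open Matrix

theorem exists_lift {Γ : Type*} [Group Γ] (hΓ : Group.FG Γ) {d : ℕ}
    (ρ : Γ →* Matrix (Fin d) (Fin d) ℝ) :
    ∃ T : Finset ℝ, ∀ A : Subring ℝ, (∀ x ∈ T, x ∈ A) →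
      ∃ ρA : Γ →* Matrix (Fin d) (Fin d) A, ∀ g, (ρA g).map A.subtype = ρ g := by
  classical
  obtain ⟨S, hS⟩ := Group.fg_iff'.1 hΓ |>.imp (fun n hn => hn) |> fun ⟨n, S, _, hS⟩ => (⟨S, hS⟩ :
    ∃ S : Finset Γ, Subgroup.closure (S : Set Γ) = ⊤)
  refine ⟨S.biUnion (fun g => (Finset.univ : Finset (Fin d × Fin d)).image
      (fun q => ρ g q.1 q.2)) ∪ S.biUnion (fun g => (Finset.univ : Finset (Fin d × Fin d)).image
      (fun q => ρ g⁻¹ q.1 q.2)), fun A hA => ?_⟩
  have h1 : ∀ g ∈ S, ∀ i j, ρ g i j ∈ A := by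
    intro g hg i j
    apply hA
    rw [Finset.mem_union, Finset.mem_biUnion]
    exact Or.inl ⟨g, hg, Finset.mem_image.2 ⟨(i, j), Finset.mem_univ _, rfl⟩⟩
  have h2 : ∀ g ∈ S, ∀ i j, ρ g⁻¹ i j ∈ A := by
    intro g hg i j
    apply hA
    rw [Finset.mem_union, Finset.mem_biUnion, Finset.mem_biUnion]
    exact Or.inr ⟨g, hg, Finset.mem_image.2 ⟨(i, j), Finset.mem_univ _, rfl⟩⟩
  have h3 : ∀ g : Γ, (∀ i j, ρ g i j ∈ A) ∧ (∀ i j, ρ g⁻¹ i j ∈ A) := by
    intro g
    have hg : g ∈ Subgroup.closure (S : Set Γ) := by rw [hS]; trivial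
    induction hg using Subgroup.closure_induction with
    | mem x hx => exact ⟨h1 x hx, h2 x hx⟩
    | one =>
      have h0 : ∀ i j, (ρ 1) i j ∈ A := by
        intro i j
        rw [map_one, Matrix.one_apply]
        split_ifs
        · exact A.one_mem
        · exact A.zero_mem
      exact ⟨h0, by rw [inv_one]; exact h0⟩
    | mul x y _ _ hx hy =>
      refine ⟨fun i j => ?_, fun i j => ?_⟩
      · rw [map_mul, Matrix.mul_apply]
        exact A.sum_mem fun l _ => A.mul_mem (hx.1 i l) (hy.1 l j)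
      · rw [_root_.mul_inv_rev, map_mul, Matrix.mul_apply]
        exact A.sum_mem fun l _ => A.mul_mem (hy.2 i l) (hx.2 l j)
    | inv x _ hx => exact ⟨hx.2, by rw [inv_inv]; exact hx.1⟩
  have hinj : Function.Injective
      (fun M : Matrix (Fin d) (Fin d) A => M.map (A.subtype : A → ℝ)) :=
    Matrix.map_injective Subtype.coe_injective
  refine ⟨{ toFun := fun g => Matrix.of fun i j => (⟨ρ g i j, (h3 g).1 i j⟩ : A)
            map_one' := ?_
            map_mul' := ?_ }, fun g => ?_⟩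
  · apply hinj
    ext i j
    simp only [Matrix.map_apply, Matrix.of_apply, Subring.subtype_apply, map_one, Matrix.one_apply]
    split_ifs <;> rfl
  · intro x y
    apply hinj
    ext i j
    simp only [Matrix.map_apply, Matrix.of_apply, Subring.subtype_apply, map_mul,
      Matrix.mul_apply]
    rw [AddSubmonoidClass.coe_finsetSum]
    rfl
  · ext i j
    rfl

theorem exists_congr {Γ : Type*} [Group Γ] (p : ℕ) [Fact p.Prime] (j D : ℕ) {A : Type*}
    [CommRing A] (Λ : A →+* Matrix (Fin D) (Fin D) ℤ_[p]) {d : ℕ}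
    (ρ : Γ →* Matrix (Fin d) (Fin d) A) :
    ∃ Γ₀ : Subgroup Γ, Γ₀.FiniteIndex ∧ ∀ h ∈ Γ₀, ∀ s t : Fin d,
      (Λ (ρ h s t)).map (PadicInt.toZModPow j) = if s = t then 1 else 0 := by
  classical
  have hne : NeZero (p ^ j) := ⟨pow_ne_zero _ (Fact.out : p.Prime).ne_zero⟩
  have hfin : Finite (Matrix (Fin d) (Fin d) (Matrix (Fin D) (Fin D) (ZMod (p ^ j)))) := by
    unfold Matrix
    infer_instance
  let Θ : A →+* Matrix (Fin D) (Fin D) (ZMod (p ^ j)) :=
    (RingHom.mapMatrix (PadicInt.toZModPow j)).comp Λ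
  let F : Γ →* Matrix (Fin d) (Fin d) (Matrix (Fin D) (Fin D) (ZMod (p ^ j))) :=
    ((RingHom.mapMatrix Θ : Matrix (Fin d) (Fin d) A →+* _) : _ →* _).comp ρ
  have hker : (F.toHomUnits.ker).FiniteIndex := by
    have : Finite (Matrix (Fin d) (Fin d) (Matrix (Fin D) (Fin D) (ZMod (p ^ j))))ˣ :=
      inferInstance
    exact Subgroup.finiteIndex_ker _
  refine ⟨F.toHomUnits.ker, hker, fun h hh s t => ?_⟩
  have h1 : F h = 1 := by
    have h2 : F.toHomUnits h = 1 := hh
    have h3 := congrArg Units.val h2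
    simpa using h3
  have h4 := congrFun (congrFun h1 s) t
  rw [Matrix.one_apply] at h4
  exact h4

end Pool.Agent.ELS
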