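import Pool.Agent.ELS.Defs

/-!
# Finitely generated subrings of `ℝ` act on finitely generated free modules over the `p`-adic integers

Let `A` be the subring of `ℝ` generated by `T` and `E` the `ℚ`-subalgebra generated by `T`.  `E` is a
finitely generated `ℚ`-algebra and not zero; let `K` be its quotient by a maximal ideal, a field which is
a finitely generated `ℚ`-algebra, so of finite degree `D` over `ℚ` (`finite_of_finite_type_of_isJacobsonRing`
or `Algebra.FiniteType` over a field: Zariski's lemma), and `π : A → E → K`.  Let `b` be a basis of `K` and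
`p` a prime which does not divide the denominators of the entries of the matrices
`Algebra.leftMulMatrix b (π x)`, `x ∈ T`.  Then the entries of `Algebra.leftMulMatrix b (π x)` have
`p`-adic norm at most `1` for all `x ∈ A` (closure induction).
-/

namespace Pool.Agent.ELS

open Matrix

private theorem numField_key {A : Type*} [CommRing A] {K : Type*} [Field K] [Algebra ℚ K] (π : A →+* K)
    {D : ℕ} (b : Module.Basis (Fin D) ℚ K) (p : ℕ) [Fact p.Prime]
    (h : ∀ (x : A) (s t : Fin D), ‖((Algebra.leftMulMatrix b (π x) s t : ℚ) : ℚ_[p])‖ ≤ 1) :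
    ∃ Λ : A →+* Matrix (Fin D) (Fin D) ℤ_[p], ∀ (x : A) (s t : Fin D),
      ((Λ x s t : ℤ_[p]) : ℚ_[p]) = ((Algebra.leftMulMatrix b (π x) s t : ℚ) : ℚ_[p]) := by
  let L : A → Matrix (Fin D) (Fin D) ℤ_[p] := fun x s t =>
    ⟨((Algebra.leftMulMatrix b (π x) s t : ℚ) : ℚ_[p]), h x s t⟩
  have hL : ∀ (x : A) (s t : Fin D), ((L x s t : ℤ_[p]) : ℚ_[p]) =
      ((Algebra.leftMulMatrix b (π x) s t : ℚ) : ℚ_[p]) := fun x s t => rfl
  have hinj : ∀ M N : Matrix (Fin D) (Fin D) ℤ_[p],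
      (∀ s t, ((M s t : ℤ_[p]) : ℚ_[p]) = ((N s t : ℤ_[p]) : ℚ_[p])) → M = N := by
    intro M N hMN
    refine Matrix.ext fun s t => ?_
    exact Subtype.ext (hMN s t)
  refine ⟨{ toFun := L, map_one' := ?_, map_mul' := ?_, map_zero' := ?_, map_add' := ?_ }, hL⟩
  · apply hinj
    intro s t
    rw [hL, map_one, map_one, Matrix.one_apply, Matrix.one_apply]
    split_ifs <;> simp
  · intro x y
    apply hinj
    intro s t
    rw [hL, map_mul, map_mul, Matrix.mul_apply, Matrix.mul_apply, PadicInt.coe_sum, Rat.cast_sum]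
    refine Finset.sum_congr rfl fun j _ => ?_
    rw [PadicInt.coe_mul, Rat.cast_mul, hL, hL]
  · apply hinj
    intro s t
    rw [hL, map_zero, map_zero]
    simp
  · intro x y
    apply hinj
    intro s t
    rw [hL, map_add, map_add, Matrix.add_apply, Matrix.add_apply]
    push_cast
    rfl

private theorem numField_prime {ι : Type*} (T : Finset ι) (f : ι → ℕ) (hf : ∀ x, 0 < f x) :
    ∃ p : ℕ, p.Prime ∧ ∀ x ∈ T, ¬ p ∣ f x := by
  obtain ⟨p, hpN, hp⟩ := Nat.exists_infinite_primes ((∏ x ∈ T, f x) + 1)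
  refine ⟨p, hp, fun x hx hdvd => ?_⟩
  have h3 := Nat.le_of_dvd (Finset.prod_pos fun x _ => hf x) (hdvd.trans (Finset.dvd_prod_of_mem f hx))
  omega

theorem exists_padic (T : Finset ℝ) :
    ∃ (A : Subring ℝ) (K : Type) (_ : Field K) (_ : Algebra ℚ K) (_ : Module.Finite ℚ K)
      (π : A →+* K) (p : ℕ) (_ : Fact p.Prime) (D : ℕ) (b : Module.Basis (Fin D) ℚ K)
      (Λ : A →+* Matrix (Fin D) (Fin D) ℤ_[p]), (∀ x ∈ T, x ∈ A) ∧ 0 < D ∧
      ∀ (x : A) (s t : Fin D), ((Λ x s t : ℤ_[p]) : ℚ_[p]) =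
        ((Algebra.leftMulMatrix b (π x) s t : ℚ) : ℚ_[p]) := by
  classical
  let E : Subalgebra ℚ ℝ := Algebra.adjoin ℚ (T : Set ℝ)
  let A : Subring ℝ := Subring.closure (T : Set ℝ)
  have hAE : A ≤ E.toSubring := Subring.closure_le.2 Algebra.subset_adjoin
  haveI hEft : Algebra.FiniteType ℚ E := (Subalgebra.fg_iff_finiteType E).1 (Subalgebra.fg_adjoin_finset T)
  obtain ⟨M, hM⟩ := Ideal.exists_maximal E
  letI : Field (E ⧸ M) := Ideal.Quotient.field M
  haveI hKft : Algebra.FiniteType ℚ (E ⧸ M) :=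
    Algebra.FiniteType.of_surjective (Ideal.Quotient.mkₐ ℚ M) (Ideal.Quotient.mkₐ_surjective ℚ M)
  haveI hfin : Module.Finite ℚ (E ⧸ M) := finite_of_finite_type_of_isJacobsonRing ℚ (E ⧸ M)
  let π : A →+* (E ⧸ M) := (Ideal.Quotient.mk M).comp (Subring.inclusion hAE)
  let b := Module.finBasis ℚ (E ⧸ M)
  have hTA : ∀ x ∈ T, x ∈ A := fun x hx => Subring.subset_closure hx
  obtain ⟨p, hp, hpT⟩ := numField_prime (T.attach ×ˢ (Finset.univ : Finset (Fin _ × Fin _)))
    (fun z => (Algebra.leftMulMatrix b (π ⟨z.1.1, hTA z.1.1 z.1.2⟩) z.2.1 z.2.2).den)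
    (fun z => Rat.den_pos _)
  haveI : Fact p.Prime := ⟨hp⟩
  have hgen : ∀ x (hx : x ∈ T) s t,
      ‖((Algebra.leftMulMatrix b (π ⟨x, hTA x hx⟩) s t : ℚ) : ℚ_[p])‖ ≤ 1 := by
    intro x hx s t
    apply Padic.norm_rat_le_one
    exact hpT (⟨x, hx⟩, (s, t)) (Finset.mem_product.2 ⟨Finset.mem_attach T ⟨x, hx⟩, Finset.mem_univ _⟩)
  have hall : ∀ (x : A) s t, ‖((Algebra.leftMulMatrix b (π x) s t : ℚ) : ℚ_[p])‖ ≤ 1 := by
    rintro ⟨x, hx⟩
    induction hx using Subring.closure_induction with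
    | mem x hx => exact hgen x hx
    | zero =>
      intro s t
      have : (⟨0, zero_mem _⟩ : A) = 0 := rfl
      rw [this, map_zero, map_zero]
      simp
    | one =>
      intro s t
      have : (⟨1, one_mem _⟩ : A) = 1 := rfl
      rw [this, map_one, map_one, Matrix.one_apply]
      split_ifs <;> simp
    | add x y hx hy ihx ihy =>
      intro s t
      have : (⟨x + y, add_mem hx hy⟩ : A) = ⟨x, hx⟩ + ⟨y, hy⟩ := rfl
      rw [this, map_add, map_add, Matrix.add_apply]
      push_cast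
      exact (Padic.nonarchimedean _ _).trans (max_le (ihx s t) (ihy s t))
    | neg x hx ih =>
      intro s t
      have : (⟨-x, neg_mem hx⟩ : A) = -⟨x, hx⟩ := rfl
      rw [this, map_neg, map_neg, Matrix.neg_apply]
      push_cast
      rw [norm_neg]
      exact ih s t
    | mul x y hx hy ihx ihy =>
      intro s t
      have : (⟨x * y, mul_mem hx hy⟩ : A) = ⟨x, hx⟩ * ⟨y, hy⟩ := rfl
      rw [this, map_mul, map_mul, Matrix.mul_apply]
      push_cast
      have h1 : ∀ j, ((Algebra.leftMulMatrix b (π ⟨x, hx⟩) s j : ℚ) : ℚ_[p]) *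
          ((Algebra.leftMulMatrix b (π ⟨y, hy⟩) j t : ℚ) : ℚ_[p]) ∈ PadicInt.subring p :=
        fun j => mul_mem (ihx s j) (ihy j t)
      exact sum_mem (S := PadicInt.subring p) fun j _ => h1 j
  obtain ⟨Λ, hΛ⟩ := numField_key π b p hall
  exact ⟨A, E ⧸ M, inferInstance, inferInstance, hfin, π, p, inferInstance, _, b, Λ, hTA,
    Module.finrank_pos, hΛ⟩

end Pool.Agent.ELS
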